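import Pool.Agent.N931.PN.Stm2
import Pool.Agent.H389R2.NS.Pair2

/-!
Project PN (helper931), part PN/P2B: two layers, long excursions behind a block in the bulk.
-/

set_option autoImplicit false

namespace Pool.Agent.N279.PN.P2B

open H974 H12S H389NS H984N H984P Finset
open Pool.Agent.N116.EW
open Pool.Agent.N931.PN

/-- The four-arm event of the annulus. -/
def XX (z : Vtx) (d R : ℕ) (F : Finset Edg) : Prop := A4a z d R (↑F : Set Edg) ∨ D4 z d R F

theorem A4a_loc (c : ℤ × ℤ) (d k : ℕ) (F : Finset Edg) :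
    A4a c d k (↑F : Set Edg) ↔ A4a c d k (↑(F ∩ (blk c k \ blk c d)) : Set Edg) := by
  have : (↑(F ∩ (blk c k \ blk c d)) : Set Edg) ∩ ↑(blk c k \ blk c d) =
      (↑F : Set Edg) ∩ ↑(blk c k \ blk c d) := by
    rw [Finset.coe_inter, Set.inter_assoc, Set.inter_self]
  unfold A4a
  rw [this]

theorem XX_loc (z : Vtx) (d R : ℕ) (F : Finset Edg) : XX z d R F ↔ XX z d R (F ∩ AN z d R) := by
  have h1 : AN z d R \ (F ∩ AN z d R) = AN z d R \ F := by
    ext x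
    simp only [Finset.mem_sdiff, Finset.mem_inter]
    tauto
  have h2 : A4a z d R (↑F : Set Edg) ↔ A4a z d R (↑(F ∩ AN z d R) : Set Edg) := A4a_loc z d R F
  unfold XX D4
  rw [h1, h2]

theorem NX_loc (D : Dm) (z : Vtx) (R w : ℕ) (F : Finset Edg) (hF : F ⊆ D.edges) :
    NX D z R w F ↔ NX D z R w (F ∩ (D.edges \ blk z R)) := by
  have h1 : ((↑F : Set Edg) \ ↑(blk z R)) =
      ((↑(F ∩ (D.edges \ blk z R)) : Set Edg) \ ↑(blk z R)) := by
    ext x
    simp only [Set.mem_sdiff, Finset.mem_coe, Finset.mem_inter, Finset.mem_sdiff]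
    constructor
    · rintro ⟨a, b⟩
      exact ⟨⟨a, hF a, b⟩, b⟩
    · rintro ⟨⟨a, _⟩, b⟩
      exact ⟨a, b⟩
  have h2 : {e | e ∈ D.edges ∧ e ∉ D.cfg F ∧ e ∉ blk z R} =
      {e | e ∈ D.edges ∧ e ∉ D.cfg (F ∩ (D.edges \ blk z R)) ∧ e ∉ blk z R} := by
    ext x
    simp only [Dm.cfg, Set.mem_ofPred_eq, Set.mem_union, Finset.mem_coe, Finset.mem_inter,
      Finset.mem_sdiff]
    tauto
  unfold NX
  rw [← h1, ← h2]

theorem blk_sub {D : Dm} {z : Vtx} {R : ℕ} (h : (R : ℤ) ≤ D.bd z) : blk z R ⊆ D.edges := by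
  unfold blk Dm.edges
  unfold Dm.bd at h
  simp only [le_min_iff] at h
  obtain ⟨⟨h1, h2⟩, h3, h4⟩ := h
  exact H974.RE_subset (by omega) (by omega) (by omega) (by omega)

theorem blk_mono {z : Vtx} {d R : ℕ} (h : d ≤ R) : blk z d ⊆ blk z R := by
  unfold blk
  exact H974.RE_subset (by omega) (by omega) (by omega) (by omega)

theorem main : S_LGV → S_LGW → S_NXB → S_NXP → S_P4 → S_P2B := by
  intro hV hW hNB hNP hP4
  obtain ⟨C1, hC1, h1⟩ := hNP
  obtain ⟨C2, hC2, h2⟩ := hP4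
  refine ⟨C2 * C1, mul_pos hC2 hC1, ?_⟩
  intro D hD B z d R ρ w hd hdR hRρ hRw hw hB x hx0 hx1 hx
  have hbd : (R : ℤ) + 4 ≤ D.bd z := by omega
  have hρ : ∀ e ∈ D.edges, 0 ≤ (fun _ : Edg => x) e ∧ (fun _ : Edg => x) e ≤ 1 :=
    fun _ _ => ⟨hx0, hx1.le⟩
  have hbR : blk z R ⊆ D.edges := blk_sub (by omega)
  have hAN : AN z d R ⊆ D.edges := Finset.sdiff_subset.trans hbR
  have key : ∀ F : Finset Edg, F ⊆ D.edges → LG D B ρ F → XX z d R F ∧ NX D z R w F := by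
    intro F hF h
    refine ⟨?_, hNB D hD F B hF z R w ρ (by omega) (hB.trans (blk_mono (by omega))) h⟩
    rcases h with h | h
    · exact Or.inl (hV D hD F B hF z d R ρ hd hdR hRρ hbd hB h)
    · exact Or.inr (hW D hD F B hF z d R ρ hd hdR hRρ hbd hB h)
  have hdis : Disjoint (AN z d R) (D.edges \ blk z R) := by
    rw [Finset.disjoint_left]
    intro e he he'
    exact (Finset.mem_sdiff.1 he').2 (Finset.mem_sdiff.1 he).1
  have s1 : P2 (fun _ => x) D.edges (LG D B ρ) (LG D B ρ) ≤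
      P2 (fun _ => x) D.edges (fun F => XX z d R F ∧ NX D z R w F)
        (fun F => XX z d R F ∧ NX D z R w F) := H389NS.D0.P2_mono hρ key key
  have s2 : P2 (fun _ => x) D.edges (fun F => XX z d R F ∧ NX D z R w F)
        (fun F => XX z d R F ∧ NX D z R w F) =
      P2 (fun _ => x) D.edges (XX z d R) (XX z d R) *
        P2 (fun _ => x) D.edges (NX D z R w) (NX D z R w) :=
    H389NS.P2_indep hAN Finset.sdiff_subset hdis (fun F _ => XX_loc z d R F) (fun F _ => XX_loc z d R F)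
      (fun F hF => NX_loc D z R w F hF) (fun F hF => NX_loc D z R w F hF)
  have s3 : P2 (fun _ => x) D.edges (XX z d R) (XX z d R) ≤ C2 * ((d : ℝ) / R) ^ (5 / 2 : ℝ) :=
    h2 D.edges z d R hd hdR hAN x hx0 hx1 hx
  have s4 : P2 (fun _ => x) D.edges (NX D z R w) (NX D z R w) ≤
      C1 * ((R : ℝ) / w) ^ (1 / 4 : ℝ) :=
    (H389NS.P2_le_Pr hρ _ _).trans (h1 D hD z R w (by omega) (by omega) hw)
  have p3 : 0 ≤ P2 (fun _ => x) D.edges (XX z d R) (XX z d R) := H389NS.D0.P2_nonneg hρ _ _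
  have p4 : 0 ≤ P2 (fun _ => x) D.edges (NX D z R w) (NX D z R w) := H389NS.D0.P2_nonneg hρ _ _
  calc P2 (fun _ => x) D.edges (LG D B ρ) (LG D B ρ)
      ≤ P2 (fun _ => x) D.edges (XX z d R) (XX z d R) *
        P2 (fun _ => x) D.edges (NX D z R w) (NX D z R w) := s1.trans s2.le
    _ ≤ (C2 * ((d : ℝ) / R) ^ (5 / 2 : ℝ)) * (C1 * ((R : ℝ) / w) ^ (1 / 4 : ℝ)) :=
        mul_le_mul s3 s4 p4 (p3.trans s3)
    _ = C2 * C1 * (((d : ℝ) / R) ^ (5 / 2 : ℝ) * ((R : ℝ) / w) ^ (1 / 4 : ℝ)) := by ring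

end Pool.Agent.N279.PN.P2B
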